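import Pool.Agent.Lib.L1S.PS.Stm
import Pool.Agent.Lib.L1S.Main2

/-!
# The equivalence of the two forms of the statement
-/

namespace Pool.Agent.Lib.L1S.PS

open MeasureTheory Matrix NumberField IsDedekindDomain

noncomputable section

variable {ι M N : Type} [Fintype ι] [DecidableEq ι] [AddCommGroup M] [Module ℚ M] [AddCommGroup N] [Module ℚ N]
  {P : RootPairing ι ℚ M N} [P.IsCrystallographic] (b : P.Base) (K : Type) [Field K] [NumberField K]

/-- The group `G(K)`. -/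
abbrev G0 : Subgroup (GL (b.support ⊕ ι) K) := Grp (RootPairing.GeckConstruction.e (b := b)) (RootPairing.GeckConstruction.f (b := b)) K

/-- The real group. -/
abbrev G1 : Subgroup (GL (b.support ⊕ ι) (mixedEmbedding.mixedSpace K)) := Cl (mixedEmbedding K) (G0 b K)

/-- The height. -/
abbrev h0 : b.support ⊕ ι → ℤ := Sum.elim (fun _ => 0) b.height

theorem g0_eq : G0 b K = L1S.GQ b K := rfl

theorem g1_eq : G1 b K = L1S.GE b K := rfl

theorem uni_eq : Uni (h0 b) (G1 b K) = L1S.UR b K := rfl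

theorem emb_eq (g : G0 b K) : emb (mixedEmbedding K) (G0 b K) g = L1S.emb b K g := rfl

variable {K} (𝔫 : Ideal (𝓞 K)) (v : HeightOneSpectrum (𝓞 K)) (r s : ℕ)

theorem gamK_eq : GamK 𝔫 v r s (h0 b) (G0 b K) = L1S.GamK b 𝔫 v r s := by
  ext g
  exact ⟨fun h i j => ⟨h.1 i j, h.2 i j⟩, fun h => ⟨fun i j => (h i j).1, fun i j => (h i j).2⟩⟩

theorem gam_eq : Gam 𝔫 v r s (h0 b) (G0 b K) (mixedEmbedding K) = L1S.Gam b 𝔫 v r s := by
  unfold Gam
  rw [gamK_eq]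
  rfl

section

variable [P.IsRootSystem]

theorem pr_eq (c : b.support → ℤ) (β : ι) : L1S.pr b c (Sum.inr β) = pr b c β := rfl

theorem wt_eq (c : b.support → ℤ) : L1S.pr b c = wt b c := rfl

theorem sz_of {c c' : b.support → ℤ} (h : Sz b (Ideal.absNorm 𝔫) (Ideal.absNorm v.asIdeal) r s c c') : L1S.Sz2 b 𝔫 v r s c c' := h

theorem aut_of {μ : Measure (L1S.GR b K)} {D : Set (L1S.GR b K)} {φ F : L1S.GR b K → ℂ} (h : Aut (L1S.Gam b 𝔫 v r s) μ D φ F) : L1S.Aut b 𝔫 v r s μ D φ F := ⟨h.cont, h.inv, h.l2, h.eig⟩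

/-- **(C)**. -/
theorem ex (h : ∀ (v : HeightOneSpectrum (𝓞 K)) (𝔫 : Ideal (𝓞 K)), ¬𝔫 ≤ v.asIdeal → ∀ (r s : ℕ) (c : b.support → ℤ) (π : K), v.valuation K π = WithZero.exp (-1 : ℤ) →
    ∃ h ∈ L1S.HG b 𝔫 v, L1S.AtV b v r s π c h) : Ex (h0 b) (G0 b K) (Set.range (wt b)) := by
  rintro v 𝔫 hv r s _ ⟨c, rfl⟩ π hπ
  exact h v 𝔫 hv r s c π hπ

theorem inRange_of {Ω : Set (GL (b.support ⊕ ι) (mixedEmbedding.mixedSpace K))} {A : M →ₗ[ℚ] ℝ} {x : G1 b K} (h : InRange (Uni (h0 b) (G1 b K)) Ω (Sum.elim (fun _ => 0) fun β => A (P.root β)) x) :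
    L1S.InRange b Ω A x := by
  obtain ⟨u, hu, ω, hω, e⟩ := h
  refine ⟨u, hu, ω, hω, ?_⟩
  rw [e]
  have e1 : (Matrix.diagonal fun i => algebraMap ℝ (mixedEmbedding.mixedSpace K) (Real.exp ((Sum.elim (fun _ => 0) fun β => A (P.root β) : b.support ⊕ ι → ℝ) i))) = L1S.dg b K A := by
    unfold L1S.dg
    refine congrArg _ (funext fun i => ?_)
    rcases i with i | β
    · simp
    · rfl
  rw [e1]

variable (K) in
/-- **(A), (B)**. -/
theorem est [P.IsReduced] [P.IsIrreducible] : Est (h0 b) (G0 b K) (mixedEmbedding K) (fun i => (Sum.inl i, Sum.inr (P.reflectionPerm i i))) (Adm b K) := by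
  intro m1 hm1 m2 hm2 μ hμ φ hφ cφ Ω hΩ
  obtain rfl : m1 = borel _ := hm1.measurable_eq
  obtain rfl : m2 = borel _ := hm2.measurable_eq
  have st := (L1S.statement2 b K).2
  obtain ⟨C, hC⟩ := @st μ hμ φ hφ cφ Ω hΩ
  refine ⟨C, ?_⟩
  rintro v 𝔫 h𝔫 hv r s m w q d X ⟨c, A, hc, hdom, hsz, hA, hw, hq, rfl, rfl⟩ π hπ h hh θ hθ x hx ν hν D hD M' F hF horth a
  obtain rfl : w = fun k => wt b (c k) := funext hw
  obtain rfl : q = fun k => (Ideal.absNorm v.asIdeal : ℝ) ^ (∑ β ∈ Pos b, pr b (c k) β) := funext hq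
  rw [gam_eq] at hD hF ⊢
  have k1 := hC v 𝔫 h𝔫 hv r s m c hc hdom (fun k k' => hsz k k') π hπ h hh θ hθ A hA x (inRange_of b hx)
  have key := @k1 ν hν D hD M' F (fun l => aut_of b 𝔫 v r s (hF l)) horth a
  refine ⟨fun D' hD' => ?_, fun hl t ht D' hD' => ?_⟩
  · refine (key.1 D' hD').trans (le_of_eq ?_)
    simp only [_root_.zpow_neg]
    rw [mul_comm C, mul_assoc]
    rfl
  · refine (key.2 hl t ht D' hD').trans (le_of_eq ?_)
    rw [mul_comm C, mul_assoc]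
    rfl

/-- **The density theorem**. -/
theorem density [P.IsReduced] [P.IsIrreducible] (K : Type) [Field K] [NumberField K] : Density b K := ⟨ex b (L1S.statement2 b K).1, est b K⟩

end

end

end Pool.Agent.Lib.L1S.PS
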