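import Mathlib

/-!
# The density theorem for the globally generic spectrum of every split simple group: the statement

`P` is an irreducible reduced crystallographic root system with base `b`, `K` a number field. The definitions are made in general in sections 1 (a group `G` with subgroups `Γ`, `U`), 2 (groups of matrices over a ring
`R`, closures of subgroups of `GL(K)`) and 3 (levels, Hecke elements, the general form `Est` of the statement); section 4 has the combinatorics of the root system and section 5 (`Density`) the statement for the group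
`G(K)` generated by the `exp(t e_i)`, `exp(t f_i)`, `t ∈ K`, with `R = K ⊗ ℝ`. The matrices are then indexed by `b.support ⊕ ι` (`ι` the set of roots): this is the adjoint representation of Geck's construction of the
simple Lie algebra of `P` (`RootPairing.GeckConstruction`), with the Chevalley generators `e_i`, `f_i`; `G(K)` is the image in the adjoint group of the `K`-points of the simply connected split group.
-/

namespace Pool.Agent.Lib.L1S.PS

open MeasureTheory Matrix NumberField IsDedekindDomain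

noncomputable section

set_option linter.unusedSectionVars false

/-! ## 1. Groups -/

section groups

variable {G : Type} [Group G]

/-- `w ∈ Γ h Γ`. -/
def InT (Γ : Subgroup G) (h w : G) : Prop := ∃ γ ∈ Γ, ∃ γ' ∈ Γ, w = γ * h * γ'

/-- **Hecke operators**: `F` is an eigenfunction with the eigenvalue `t` of the operator of the double coset `Γ h Γ`: `∑ F (w x) = t F (x)`, the sum over `w ∈ Γ \ Γ h Γ`. -/
def IsT (Γ : Subgroup G) (h : G) (F : G → ℂ) (t : ℂ) : Prop :=
  ∃ S : Finset G, (∀ w ∈ S, InT Γ h w) ∧ (∀ w, InT Γ h w → ∃! w', w' ∈ S ∧ w * w'⁻¹ ∈ Γ) ∧ ∀ x, ∑ w ∈ S, F (w * x) = t * F x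

/-- `h⁻¹ Γ h ∩ U` as a subgroup of `U`. -/
def GamH (Γ U : Subgroup G) (h : G) : Subgroup U := (Γ.comap (MulAut.conj h).toMonoidHom).subgroupOf U

/-- `D` is a fundamental domain for `Γ`, which acts on `G` by left multiplication. -/
def IsFD [MeasurableSpace G] (Γ : Subgroup G) (D : Set G) (μ : Measure G) : Prop := IsFundamentalDomain Γ D μ

/-- **The Whittaker coefficient** of `F` at `x`: the mean value of `F (u x) ψ(u)⁻¹` over `D`, a fundamental domain for a discrete subgroup of `U`. -/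
def Wh (U : Subgroup G) [MeasurableSpace U] (ν : Measure U) (D : Set U) (ψ : U → ℂ) (F : G → ℂ) (x : G) : ℂ := ⨍ u in D, F (u.1 * x) * star (ψ u) ∂ν

variable [TopologicalSpace G] [MeasurableSpace G]

/-- Continuous functions in `L²(Γ \ G)` (`D` a fundamental domain) which are eigenfunctions of the convolution operator of `φ` with eigenvalue at least one in absolute value: `∫ F (x y) φ (y) dy = c F (x)`, `|c| ≥ 1`. -/
structure Aut (Γ : Subgroup G) (μ : Measure G) (D : Set G) (φ F : G → ℂ) : Prop where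
  cont : Continuous F
  inv : ∀ γ ∈ Γ, ∀ x, F (γ * x) = F x
  l2 : MemLp F 2 (μ.restrict D)
  eig : ∃ c : ℂ, 1 ≤ ‖c‖ ∧ ∀ x, ∫ y, F (x * y) * φ y ∂μ = c * F x

/-- **The two inequalities** at a point `x` for the Hecke elements `h_k` with the weights `q_k`: for orthonormal `F_1, …, F_m` in `L²(Γ \ G)` and complex numbers `a_k`
(A) `∑_l |∑_k a_k W_k(F_l)|² ≤ (∑_k |a_k|² q_k⁻¹) X`, `W_k(F)` the Whittaker coefficient of `F (h_k ·)` at `x` (mean value over `(h_k⁻¹ Γ h_k ∩ U) \ U`);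
(B) if `lev` holds and `t_{l,k}` is the eigenvalue on `F_l` of the Hecke operator of `Γ h_k Γ`, then `∑_l |∑_k a_k t_{l,k}|² |W(F_l)|² ≤ (∑_k |a_k|² q_k) X`, `W(F)` the Whittaker coefficient of `F` at `x`. -/
def Bounds (U Γ : Subgroup G) [MeasurableSpace U] (lev : Prop) (μ : Measure G) (ν : Measure U) (φ : G → ℂ) (ψ : U → ℂ) (x : G) (m : ℕ) (h : Fin m → G) (q : Fin m → ℝ) (X : ℝ) : Prop :=
  ∀ D : Set G, IsFD Γ D μ → ∀ (M : ℕ) (F : Fin M → G → ℂ), (∀ l, Aut Γ μ D φ (F l)) → (∀ l k, ∫ x in D, star (F l x) * F k x ∂μ = if l = k then 1 else 0) → ∀ a : Fin m → ℂ,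
    (∀ D' : Fin m → Set U, (∀ k, IsFD (GamH Γ U (h k)) (D' k) ν) →
      ∑ l, ‖∑ k, a k * Wh U ν (D' k) ψ (fun y => F l (h k * y)) x‖ ^ 2 ≤ (∑ k, ‖a k‖ ^ 2 * (q k)⁻¹) * X) ∧
    (lev → ∀ t : Fin M → Fin m → ℂ, (∀ l k, IsT Γ (h k) (F l) (t l k)) → ∀ D' : Set U, IsFD (Γ.subgroupOf U) D' ν →
      ∑ l, ‖∑ k, a k * t l k‖ ^ 2 * ‖Wh U ν D' ψ (F l) x‖ ^ 2 ≤ (∑ k, ‖a k‖ ^ 2 * q k) * X)

end groups

/-! ## 2. Groups of matrices -/

section matrices

variable {n : Type} [Fintype n] [DecidableEq n]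

/-- The subgroup of `GL(K)` generated by the `exp(t e_i)` and the `exp(t f_i)`, `t ∈ K`. -/
def Grp {J : Type} (e f : J → Matrix n n ℚ) (K : Type) [Field K] [CharZero K] : Subgroup (GL n K) :=
  Subgroup.closure {g | ∃ (i : J) (t : K), g.1 = IsNilpotent.exp (t • (e i).map (algebraMap ℚ K)) ∨ g.1 = IsNilpotent.exp (t • (f i).map (algebraMap ℚ K))}

variable {K R : Type} [Field K] [CommRing R] [TopologicalSpace R] [IsTopologicalRing R]

/-- The closure of the image of `H` in `GL(R)`. -/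
def Cl (p : K →+* R) (H : Subgroup (GL n K)) : Subgroup (GL n R) := (H.map (GeneralLinearGroup.map p)).topologicalClosure

/-- The embedding of `H` in the closure of its image in `GL(R)`. -/
def emb (p : K →+* R) (H : Subgroup (GL n K)) : H →* Cl p H where
  toFun g := ⟨GeneralLinearGroup.map p g.1, Subgroup.le_topologicalClosure _ ⟨g.1, g.2, rfl⟩⟩
  map_one' := Subtype.ext (by simp)
  map_mul' g h := Subtype.ext (by simp)

variable (ht : n → ℤ)

theorem uni_mul {g h : Matrix n n R} (hg : ∀ r c, ht r ≤ ht c → g r c = (1 : Matrix n n R) r c) (hh : ∀ r c, ht r ≤ ht c → h r c = (1 : Matrix n n R) r c) (r c : n) (hrc : ht r ≤ ht c) :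
    (g * h) r c = (1 : Matrix n n R) r c := by
  rw [Matrix.mul_apply, Finset.sum_eq_single r]
  · rw [hg r r le_rfl, hh r c hrc, Matrix.one_apply_eq, one_mul]
  · intro k _ hk
    by_cases h1 : ht r ≤ ht k
    · rw [hg r k h1, Matrix.one_apply_ne hk.symm, zero_mul]
    · by_cases h3 : k = c
      · subst h3
        exact absurd hrc h1
      · rw [hh k c ((not_le.1 h1).le.trans hrc), Matrix.one_apply_ne h3, mul_zero]
  · intro h
    exact absurd (Finset.mem_univ r) h

/-- **The unipotent group** `U`: the elements of `G` for which `g - 1` raises the height. -/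
def Uni (G : Subgroup (GL n R)) : Subgroup G where
  carrier := {g | ∀ r c, ht r ≤ ht c → g.1.1 r c = (1 : Matrix n n R) r c ∧ g⁻¹.1.1 r c = (1 : Matrix n n R) r c}
  one_mem' := fun r c _ => by simp
  mul_mem' := by
    intro g h hg hh r c hrc
    refine ⟨uni_mul ht (fun r c h => (hg r c h).1) (fun r c h => (hh r c h).1) r c hrc, ?_⟩
    rw [_root_.mul_inv_rev]
    exact uni_mul ht (fun r c h => (hh r c h).2) (fun r c h => (hg r c h).2) r c hrc
  inv_mem' := by
    intro g hg r c hrc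
    rw [inv_inv]
    exact ⟨(hg r c hrc).2, (hg r c hrc).1⟩

/-- `e(x) = exp(2πix)`. -/
def ee (x : ℝ) : ℂ := Complex.exp (2 * Real.pi * x * Complex.I)

variable [Algebra ℝ R] {J : Type} [Fintype J]

/-- The character `ψ(u) = e(∑ θ_i(u_i))` of `U`, `u_i` the entry of `u` at the place `a_i`. -/
def psi {G : Subgroup (GL n R)} (U : Subgroup G) (a : J → n × n) (θ : J → (R →ₗ[ℝ] ℝ)) (u : U) : ℂ := ee (∑ i, θ i (u.1.1.1 (a i).1 (a i).2))

/-- `x ∈ U exp(d) Ω`, `exp(d)` the diagonal matrix with the entries `exp(d_i)`. -/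
def InRange {G : Subgroup (GL n R)} (U : Subgroup G) (Ω : Set (GL n R)) (d : n → ℝ) (x : G) : Prop :=
  ∃ u ∈ U, ∃ ω ∈ Ω, x.1.1 = u.1.1 * Matrix.diagonal (fun i => algebraMap ℝ R (Real.exp (d i))) * ω.1

end matrices

/-! ## 3. Number fields -/

section fields

variable {K : Type} [Field K] [NumberField K] (𝔫 : Ideal (𝓞 K)) (v : HeightOneSpectrum (𝓞 K)) (r s : ℕ)

/-- `x ∈ 𝔞`. -/
def InI (𝔞 : Ideal (𝓞 K)) (x : K) : Prop := ∃ y ∈ 𝔞, (y : K) = x

/-- `v ^ j x ⊆ 𝔫`. -/
def Den (j : ℕ) (x : K) : Prop := ∀ y ∈ v.asIdeal ^ j, ∃ z ∈ 𝔫, (y : K) * x = z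

variable {n : Type} [Fintype n] [DecidableEq n] (ht : n → ℤ)

/-- Entries of `g - 1` in `𝔫`, lower entries (those which lower the height) in `v ^ (r + s)`, diagonal blocks congruent to `1` modulo `v ^ r`. -/
def Lev (g : Matrix n n K) : Prop :=
  ∀ i j, InI 𝔫 ((g - 1) i j) ∧ (ht i < ht j → InI (v.asIdeal ^ (r + s)) (g i j)) ∧ (ht i = ht j → InI (v.asIdeal ^ r) ((g - 1) i j))

/-- Entries integral at `v`, lower entries in `v ^ (r + s)`, diagonal blocks congruent to `1` modulo `v ^ r`. -/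
def IwL (g : Matrix n n K) : Prop :=
  ∀ i j, v.valuation K (g i j) ≤ 1 ∧ (ht i < ht j → v.valuation K (g i j) ≤ WithZero.exp (-((r : ℤ) + s))) ∧
    (ht i = ht j → v.valuation K ((g - 1) i j) ≤ WithZero.exp (-(r : ℤ)))

/-- `g ∈ Γ_v λ(π)⁻¹`, `Γ_v` the group of level `r, s` at `v`, `λ(π)` the diagonal matrix with the entries `π ^ w_i`. -/
def AtV (π : K) (w : n → ℤ) (g : GL n K) : Prop :=
  IwL v r s ht (g.1 * Matrix.diagonal fun i => π ^ w i) ∧ IwL v r s ht ((Matrix.diagonal fun i => π ^ (-w i)) * g⁻¹.1)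

theorem InI.add {𝔞 : Ideal (𝓞 K)} {x y : K} (hx : InI 𝔞 x) (hy : InI 𝔞 y) : InI 𝔞 (x + y) := by
  obtain ⟨a, ha, rfl⟩ := hx
  obtain ⟨c, hc, rfl⟩ := hy
  exact ⟨a + c, 𝔞.add_mem ha hc, by simp⟩

theorem InI.zero (𝔞 : Ideal (𝓞 K)) : InI 𝔞 (0 : K) := ⟨0, 𝔞.zero_mem, by simp⟩

theorem InI.sum {𝔞 : Ideal (𝓞 K)} {α : Type} (s : Finset α) (f : α → K) (h : ∀ k ∈ s, InI 𝔞 (f k)) : InI 𝔞 (∑ k ∈ s, f k) := by
  classical
  induction s using Finset.induction_on with
  | empty => simpa using InI.zero 𝔞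
  | insert a s ha ih =>
    rw [Finset.sum_insert ha]
    exact (h a (Finset.mem_insert_self _ _)).add (ih fun k hk => h k (Finset.mem_insert_of_mem hk))

theorem InI.mul {𝔞 : Ideal (𝓞 K)} {x y : K} (hx : InI 𝔞 x) (hy : InI ⊤ y) : InI 𝔞 (x * y) := by
  obtain ⟨a, ha, rfl⟩ := hx
  obtain ⟨c, _, rfl⟩ := hy
  exact ⟨a * c, 𝔞.mul_mem_right _ ha, by simp⟩

theorem InI.top {𝔞 : Ideal (𝓞 K)} {x : K} (hx : InI 𝔞 x) : InI ⊤ x := by
  obtain ⟨a, _, rfl⟩ := hx
  exact ⟨a, Submodule.mem_top, rfl⟩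

theorem lev_mul {g h : Matrix n n K} (hg : Lev 𝔫 v r s ht g) (hk : Lev 𝔫 v r s ht h) : Lev 𝔫 v r s ht (g * h) := by
  have hld : v.asIdeal ^ (r + s) ≤ v.asIdeal ^ r := Ideal.pow_le_pow_right (Nat.le_add_right r s)
  have int : ∀ a : Matrix n n K, (∀ r c, InI 𝔫 ((a - 1) r c)) → ∀ r c, InI ⊤ (a r c) := by
    intro a ha r c
    have e : a r c = (a - 1) r c + (1 : Matrix n n K) r c := by simp
    rw [e]
    refine (ha r c).top.add ?_
    by_cases h : r = c
    · subst h
      rw [Matrix.one_apply_eq]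
      exact ⟨1, Submodule.mem_top, by simp⟩
    · rw [Matrix.one_apply_ne h]
      exact InI.zero _
  have mono : ∀ {x : K}, InI (v.asIdeal ^ (r + s)) x → InI (v.asIdeal ^ r) x := fun ⟨y, hy, e⟩ => ⟨y, hld hy, e⟩
  have ig := int g fun r c => (hg r c).1
  have ih := int h fun r c => (hk r c).1
  have e : g * h - 1 = (g - 1) * h + (h - 1) := by
    rw [sub_mul, one_mul]
    abel
  intro i c
  refine ⟨?_, ?_, ?_⟩
  · rw [e, Matrix.add_apply, Matrix.mul_apply]
    exact (InI.sum _ _ fun k _ => (hg i k).1.mul (ih k c)).add (hk i c).1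
  · intro hrc
    rw [Matrix.mul_apply]
    refine InI.sum _ _ fun k _ => ?_
    by_cases h1 : ht i < ht k
    · exact ((hg i k).2.1 h1).mul (ih k c)
    · rw [mul_comm]
      exact ((hk k c).2.1 ((not_lt.1 h1).trans_lt hrc)).mul (ig i k)
  · intro hrc
    rw [e, Matrix.add_apply, Matrix.mul_apply]
    refine (InI.sum _ _ fun k _ => ?_).add ((hk i c).2.2 hrc)
    rcases lt_trichotomy (ht i) (ht k) with h1 | h1 | h1
    · have hrk : i ≠ k := by
        rintro rfl
        exact absurd h1 (lt_irrefl _)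
      have e1 : (g - 1) i k = g i k := by rw [Matrix.sub_apply, Matrix.one_apply_ne hrk, sub_zero]
      rw [e1]
      exact (mono ((hg i k).2.1 h1)).mul (ih k c)
    · exact ((hg i k).2.2 h1).mul (ih k c)
    · rw [mul_comm]
      exact (mono ((hk k c).2.1 (h1.trans_le hrc.le))).mul (hg i k).1.top

theorem lev_one : Lev 𝔫 v r s ht (1 : Matrix n n K) := by
  intro i j
  rw [sub_self]
  refine ⟨InI.zero _, fun h => ?_, fun _ => InI.zero _⟩
  rw [Matrix.one_apply_ne (by rintro rfl; exact absurd h (lt_irrefl _))]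
  exact InI.zero _

variable (H : Subgroup (GL n K))

/-- **The arithmetic group** `Γ` in `H`: `g` and `g⁻¹` are congruent to `1` modulo `𝔫`, their lower entries are in `v ^ (r + s)`, their diagonal blocks are congruent to `1` modulo `v ^ r`. -/
def GamK : Subgroup H where
  carrier := {g | Lev 𝔫 v r s ht g.1.1 ∧ Lev 𝔫 v r s ht g⁻¹.1.1}
  one_mem' := by
    show Lev 𝔫 v r s ht (1 : Matrix n n K) ∧ Lev 𝔫 v r s ht (1 : H)⁻¹.1.1
    rw [inv_one]
    exact ⟨lev_one 𝔫 v r s ht, lev_one 𝔫 v r s ht⟩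
  mul_mem' := by
    intro g h hg hh
    show Lev 𝔫 v r s ht (g * h).1.1 ∧ Lev 𝔫 v r s ht (g * h)⁻¹.1.1
    rw [_root_.mul_inv_rev]
    exact ⟨lev_mul _ _ _ _ _ hg.1 hh.1, lev_mul _ _ _ _ _ hh.2 hg.2⟩
  inv_mem' := by
    intro g hg
    show Lev 𝔫 v r s ht g⁻¹.1.1 ∧ Lev 𝔫 v r s ht g⁻¹⁻¹.1.1
    rw [inv_inv]
    exact ⟨hg.2, hg.1⟩

/-- The elements of `H` over `𝓞[1/v]` with `g ≡ 1` modulo `𝔫` (`𝔫` prime to `v`). -/
def HG : Set H := {g | ∃ j, ∀ r c, Den 𝔫 v j ((g.1.1 - 1) r c) ∧ Den 𝔫 v j ((g⁻¹.1.1 - 1) r c)}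

/-- **Hecke elements exist**: for every `w ∈ W` and every level there is an element of `H` over `𝓞[1/v]`, congruent to `1` modulo `𝔫`, in `Γ_v w(π)⁻¹`. -/
def Ex (W : Set (n → ℤ)) : Prop :=
  ∀ (v : HeightOneSpectrum (𝓞 K)) (𝔫 : Ideal (𝓞 K)), ¬𝔫 ≤ v.asIdeal → ∀ r s : ℕ, ∀ w ∈ W, ∀ π : K, v.valuation K π = WithZero.exp (-1 : ℤ) → ∃ h ∈ HG 𝔫 v H, AtV v r s ht π w h.1

variable {R : Type} [CommRing R] [TopologicalSpace R] [IsTopologicalRing R] [Algebra ℝ R] (p : K →+* R) {J : Type} [Fintype J]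

/-- The arithmetic group in the closure of the image of `H` in `GL(R)`. -/
def Gam : Subgroup (Cl p H) := (GamK 𝔫 v r s ht H).map (emb p H)

/-- `ψ` is trivial on `U ∩ Γ(𝔫)` and nondegenerate: `θ_i(𝔫) ⊆ ℤ`, `θ_i ≠ 0`. -/
def Gen (θ : J → (R →ₗ[ℝ] ℝ)) : Prop := ∀ i, θ i ≠ 0 ∧ ∀ z ∈ 𝔫, ∃ m : ℤ, θ i (p (z : K)) = m

/-- **The density theorem for a group `H` of matrices over `K`** with the embedding `p : K → R`, the grading `ht`, the places `a_i` of the matrix entries which give the characters of `U` and the admissible data `Adm`.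
`G` is the closure of `H` in `GL(R)`, `U` its unipotent group, `Γ` the image in `G` of the arithmetic group. For `φ ∈ C_c(G)` and a compact set `Ω` there is a constant `C` such that for every place `v`, every ideal
`𝔫 ≠ 0` prime to `v`, all `r`, `s` and all admissible data (weights `w_k` of the Hecke elements, their degrees `q_k`, the exponents `d_i` of a torus element, the volume `X`), for Hecke elements `h_k ∈ Γ_v w_k(π)⁻¹`, a
character `ψ` given by `θ` (trivial on `Γ ∩ U`, nondegenerate) and `x ∈ U exp(d) Ω` the two inequalities of `Bounds` hold with `C X`. -/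
def Est (a : J → n × n) (Adm : Ideal (𝓞 K) → HeightOneSpectrum (𝓞 K) → ℕ → ℕ → (m : ℕ) → (Fin m → n → ℤ) → (Fin m → ℝ) → (n → ℝ) → ℝ → Prop) : Prop :=
  ∀ [MeasurableSpace (Cl p H)] [BorelSpace (Cl p H)] [MeasurableSpace (Uni ht (Cl p H))] [BorelSpace (Uni ht (Cl p H))]
    (μ : Measure (Cl p H)) [μ.IsHaarMeasure] (φ : Cl p H → ℂ), Continuous φ → HasCompactSupport φ → ∀ Ω : Set (GL n R), IsCompact Ω → ∃ C : ℝ,
    ∀ (v : HeightOneSpectrum (𝓞 K)) (𝔫 : Ideal (𝓞 K)), 𝔫 ≠ ⊥ → ¬𝔫 ≤ v.asIdeal → ∀ (r s m : ℕ) (w : Fin m → n → ℤ) (q : Fin m → ℝ) (d : n → ℝ) (X : ℝ), Adm 𝔫 v r s m w q d X →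
    ∀ π : K, v.valuation K π = WithZero.exp (-1 : ℤ) → ∀ h : Fin m → H, (∀ k, h k ∈ HG 𝔫 v H ∧ AtV v r s ht π (w k) (h k).1) →
    ∀ θ : J → (R →ₗ[ℝ] ℝ), Gen 𝔫 p θ → ∀ x : Cl p H, InRange (Uni ht (Cl p H)) Ω d x → ∀ (ν : Measure (Uni ht (Cl p H))) [ν.IsHaarMeasure],
    Bounds (Uni ht (Cl p H)) (Gam 𝔫 v r s ht H p) (1 ≤ r + s) μ ν φ (psi (Uni ht (Cl p H)) a θ) x m (fun k => emb p H (h k)) q (C * X)

end fields

/-! ## 4. Root systems -/

section roots

variable {ι M N : Type} [Fintype ι] [DecidableEq ι] [AddCommGroup M] [Module ℚ M] [AddCommGroup N] [Module ℚ N]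
  {P : RootPairing ι ℚ M N} [P.IsCrystallographic] [P.IsRootSystem] (b : P.Base)

/-- The value `⟨β, λ⟩` of the coweight `λ = ∑ c_j α_j^∨` on a root. -/
def pr (c : b.support → ℤ) (β : ι) : ℤ := ∑ j, c j * P.pairingIn ℤ β j

/-- The positive roots. -/
def Pos : Finset ι := Finset.univ.filter fun β => 0 < b.height β

/-- `Φ_i`: the positive roots which contain the simple root `α_i`. -/
def Phi (i : b.support) : Finset ι := Finset.univ.filter fun β => 0 < b.toWeightBasis.repr (P.root β) i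

/-- `w Φ_i = - Φ_j` for some element `w` of the Weyl group. -/
def Opp (i j : b.support) : Prop :=
  ∃ w ∈ Subgroup.closure (Set.range P.reflectionPerm), ∀ β, β ∈ Phi b i ↔ P.reflectionPerm (w β) (w β) ∈ Phi b j

/-- The coefficient of the simple root `α_l` in a root. -/
def mc (l : b.support) (β : ι) : ℤ := b.toWeightBasisInt.repr (P.rootSpanMem ℤ β) l

/-- `S_i(λ) = ∑_{β ∈ Φ_i} ⟨β, λ⟩`. -/
def Sl (i : b.support) (c : b.support → ℤ) : ℤ := ∑ β ∈ Phi b i, pr b c β

/-- `H_i`, the sum of the heights of the roots in `Φ_i`. -/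
def SH (i : b.support) : ℤ := ∑ β ∈ Phi b i, b.height β

/-- The sum of the coefficients of `α_l` of the roots in `Φ_i`. -/
def SM (i l : b.support) : ℤ := ∑ β ∈ Phi b i, mc b l β

/-- **The size condition** for two dominant coweights `λ`, `λ'`, with `q = N(v)`, `N = N(𝔫)`: for `w Φ_i = - Φ_j` and `k_i = |Φ_i|`: `q ^ (S_i(λ) + S_j(λ')) ≤ (N q ^ (r + s)) ^ k_i N ^ (H_i + H_j)`, or
for some simple root `α_l` and `T ≥ m_l(β)` for all `β`: `q ^ (T (S_i(λ) + S_j(λ'))) ≤ (N q ^ (r + s)) ^ P N ^ (T (H_i + H_j))`, `P` the sum of the coefficients `m_l` of the roots in `Φ_i` and in `Φ_j`. -/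
def Sz (N q : ℝ) (r s : ℕ) (c c' : b.support → ℤ) : Prop :=
  ∀ i j, Opp b i j → q ^ (Sl b i c + Sl b j c') ≤ (N * q ^ (r + s)) ^ (Phi b i).card * N ^ (SH b i + SH b j) ∨
    ∃ (l : b.support) (T : ℕ), (∀ β, mc b l β ≤ T) ∧ q ^ (T * (Sl b i c + Sl b j c')) ≤ (N * q ^ (r + s)) ^ (SM b i l + SM b j l) * N ^ (T * (SH b i + SH b j))

/-- The weights of the coweight `λ = ∑ c_j α_j^∨` on the adjoint representation. -/
def wt (c : b.support → ℤ) : b.support ⊕ ι → ℤ := Sum.elim (fun _ => 0) (pr b c)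

/-- **The admissible data** (`N = N(𝔫)`, `q = N(v)`): `w_k` are the weights of distinct dominant coweights `λ_k` of which all pairs satisfy the size condition, `q_k = q ^ (∑_{β > 0} ⟨β, λ_k⟩)`, and for a linear form `A`
with `log N ≤ [K : ℚ] A(α_i)` for the simple roots `α_i`: `d` is `A(β)` at the root `β` (`0` at the zero weights) and `X = ∏_{β > 0} exp([K : ℚ] A(β)) / N`. -/
def Adm (K : Type) [Field K] [NumberField K] (𝔫 : Ideal (𝓞 K)) (v : HeightOneSpectrum (𝓞 K)) (r s m : ℕ) (w : Fin m → b.support ⊕ ι → ℤ) (q : Fin m → ℝ) (d : b.support ⊕ ι → ℝ) (X : ℝ) : Prop :=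
  ∃ (c : Fin m → b.support → ℤ) (A : M →ₗ[ℚ] ℝ), Function.Injective c ∧ (∀ k (i : b.support), 0 ≤ pr b (c k) i) ∧ (∀ k k', Sz b (Ideal.absNorm 𝔫) (Ideal.absNorm v.asIdeal) r s (c k) (c k')) ∧
    (∀ i : b.support, Real.log (Ideal.absNorm 𝔫) ≤ Module.finrank ℚ K * A (P.root i)) ∧ (∀ k, w k = wt b (c k)) ∧ (∀ k, q k = (Ideal.absNorm v.asIdeal : ℝ) ^ (∑ β ∈ Pos b, pr b (c k) β)) ∧
    d = Sum.elim (fun _ => 0) (fun β => A (P.root β)) ∧ X = ∏ β ∈ Pos b, Real.exp (Module.finrank ℚ K * A (P.root β)) / (Ideal.absNorm 𝔫 : ℝ)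

end roots

/-! ## 5. The statement -/

/-- **The density theorem** for the globally generic spectrum of the split simple group of type `P` over `K`, with the existence of the Hecke elements for all coweights `λ = ∑ c_j α_j^∨`. The entry of `u ∈ U` in
the row of the zero weight of `α_i` and the column of the root `-α_i` is the coordinate of `u` at `α_i`. -/
def Density {ι M N : Type} [Fintype ι] [DecidableEq ι] [AddCommGroup M] [Module ℚ M] [AddCommGroup N] [Module ℚ N]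
    {P : RootPairing ι ℚ M N} [P.IsCrystallographic] [P.IsRootSystem] (b : P.Base) (K : Type) [Field K] [NumberField K] : Prop :=
  Ex (Sum.elim (fun _ => 0) b.height) (Grp RootPairing.GeckConstruction.e RootPairing.GeckConstruction.f K) (Set.range (wt b)) ∧
  Est (Sum.elim (fun _ => 0) b.height) (Grp RootPairing.GeckConstruction.e RootPairing.GeckConstruction.f K) (mixedEmbedding K) (fun i => (Sum.inl i, Sum.inr (P.reflectionPerm i i))) (Adm b K)

end

end Pool.Agent.Lib.L1S.PS
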